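import Pool.Agent.H43.PS.Targets

namespace H43.PS

open Matrix Finset

theorem CCS_aux {Θ : Type} [Fintype Θ] [DecidableEq Θ] (N : ℕ) (σ : ℝ)
    (z : Fin N → Θ) (u : Fin N → Option Θ) :
    cz σ z u ^ 2 = (∏ i, (if u i = none ∨ u i = some (z i) then (1 : ℝ) else 0)) * ((σ⁻¹) ^ 2) ^ dg u := by
  have h1 : ((σ⁻¹) ^ 2) ^ dg u = ∏ i : Fin N, (if (u i).isSome = true then (σ⁻¹) ^ 2 else (1 : ℝ)) := by
    rw [Finset.prod_ite, Finset.prod_const, Finset.prod_const_one, mul_one]
    rfl
  rw [h1, cz, ← Finset.prod_pow, ← Finset.prod_mul_distrib]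
  apply Finset.prod_congr rfl
  intro i _
  cases hu : u i with
  | none => simp [cc]
  | some t =>
    by_cases ht : t = z i
    · simp [cc, ht]
    · simp [cc, ht]

theorem CCS : T_CCS := by
  intro Θ _ _ N h σ w z hσ
  have hs0 : 0 ≤ σ⁻¹ := inv_nonneg.mpr (by linarith)
  have hs1 : σ⁻¹ ≤ 1 := inv_le_one_of_one_le₀ hσ
  have hcs := Finset.sum_mul_sq_le_sq_mul_sq (univ.filter (fun u : Fin N → Option Θ => h < dg u))
    (fun u => cz σ z u) w
  refine le_trans hcs ?_
  have hA : ∑ u ∈ univ.filter (fun u : Fin N → Option Θ => h < dg u), cz σ z u ^ 2 ≤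
      2 ^ N * (σ⁻¹) ^ (2 * (h + 1)) := by
    calc ∑ u ∈ univ.filter (fun u : Fin N → Option Θ => h < dg u), cz σ z u ^ 2
        ≤ ∑ u ∈ univ.filter (fun u : Fin N → Option Θ => h < dg u),
            (∏ i, (if u i = none ∨ u i = some (z i) then (1 : ℝ) else 0)) * (σ⁻¹) ^ (2 * (h + 1)) := by
          apply Finset.sum_le_sum
          intro u hu
          rw [CCS_aux, ← pow_mul]
          apply mul_le_mul_of_nonneg_left
          · apply pow_le_pow_of_le_one hs0 hs1
            have := (Finset.mem_filter.mp hu).2
            omega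
          · apply Finset.prod_nonneg
            intro i _
            split_ifs <;> norm_num
      _ ≤ ∑ u : Fin N → Option Θ,
            (∏ i, (if u i = none ∨ u i = some (z i) then (1 : ℝ) else 0)) * (σ⁻¹) ^ (2 * (h + 1)) := by
          apply Finset.sum_le_sum_of_subset_of_nonneg (Finset.filter_subset _ _)
          intro u _ _
          apply mul_nonneg
          · apply Finset.prod_nonneg
            intro i _
            split_ifs <;> norm_num
          · positivity
      _ = 2 ^ N * (σ⁻¹) ^ (2 * (h + 1)) := by
          rw [← Finset.sum_mul]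
          congr 1
          have := Finset.prod_univ_sum (fun _ : Fin N => (univ : Finset (Option Θ)))
            (fun i o => (if o = none ∨ o = some (z i) then (1 : ℝ) else 0))
          rw [Fintype.piFinset_univ] at this
          rw [← this]
          have h2 : ∀ i : Fin N, ∑ o : Option Θ, (if o = none ∨ o = some (z i) then (1 : ℝ) else 0) = 2 := by
            intro i
            rw [Fintype.sum_option]
            simp
            norm_num
          rw [Finset.prod_congr rfl (fun i _ => h2 i)]
          simp
  have hB : ∑ u ∈ univ.filter (fun u : Fin N → Option Θ => h < dg u), w u ^ 2 ≤ ∑ u, w u ^ 2 := by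
    apply Finset.sum_le_sum_of_subset_of_nonneg (Finset.filter_subset _ _)
    intro u _ _
    positivity
  apply mul_le_mul hA hB
  · apply Finset.sum_nonneg
    intro u _
    positivity
  · positivity

end H43.PS
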